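import Pool.Agent.L0h50.NR.Stm
import Pool.Agent.L0h45.AR.D1

/-!
# Project NR, module D1E (helper83): the module D1 at all infinite places
-/

set_option autoImplicit false

open NumberField
open scoped Classical

namespace Pool.Agent.L0h83.NR

open Pool.Agent.L0h45.AR (Q4)
open Pool.Agent.L0h50.NR

theorem mp_sub {R S : Type} [CommRing R] [CommRing S] (φ : R →+* S) (G : Q4 R) (p q r s : R) :
    mp φ (G.sub p q r s) = (mp φ G).sub (φ p) (φ q) (φ r) (φ s) := by
  ext <;> simp only [mp, Q4.sub, map_add, map_mul, map_pow, map_ofNat]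

theorem mp_I {R S : Type} [CommRing R] [CommRing S] (φ : R →+* S) (G : Q4 R) :
    (mp φ G).I = φ G.I := by
  simp only [mp, Q4.I, map_add, map_sub, map_mul, map_pow, map_ofNat]

theorem mp_J {R S : Type} [CommRing R] [CommRing S] (φ : R →+* S) (G : Q4 R) :
    (mp φ G).J = φ G.J := by
  simp only [mp, Q4.J, map_add, map_sub, map_mul, map_pow, map_ofNat]

theorem mp_mp {R S T : Type} [CommRing R] [CommRing S] [CommRing T] (φ : R →+* S) (ψ : S →+* T)
    (G : Q4 R) : mp ψ (mp φ G) = mp (ψ.comp φ) G := rfl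

section
variable {F : Type} [Field F] [NumberField F]

/-- the component at a real place -/
noncomputable def prR (w : {w : InfinitePlace F // w.IsReal}) : E F →+* ℝ :=
  (Pi.evalRingHom (fun _ : {w : InfinitePlace F // w.IsReal} => ℝ) w).comp (RingHom.fst _ _)

/-- the component at a complex place -/
noncomputable def prC (w : {w : InfinitePlace F // w.IsComplex}) : E F →+* ℂ :=
  (Pi.evalRingHom (fun _ : {w : InfinitePlace F // w.IsComplex} => ℂ) w).comp (RingHom.snd _ _)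

theorem nrm_le {x : E F} {R : ℝ} (hR : 0 ≤ R) (h1 : ∀ w, |prR w x| ≤ R) (h2 : ∀ w, ‖prC w x‖ ≤ R) :
    ‖x‖ ≤ R := by
  rw [Prod.norm_def]
  refine max_le ?_ ?_
  · rw [pi_norm_le_iff_of_nonneg hR]
    exact fun w => h1 w
  · rw [pi_norm_le_iff_of_nonneg hR]
    exact fun w => h2 w

omit [NumberField F] in
theorem abs_prR (w : {w : InfinitePlace F // w.IsReal}) (x : F) : |prR w (ι F x)| = w.1 x := by
  show |InfinitePlace.embedding_of_isReal w.2 x| = w.1 x
  rw [← Real.norm_eq_abs]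
  exact InfinitePlace.norm_embedding_of_isReal w.2 x

omit [NumberField F] in
theorem norm_prC (w : {w : InfinitePlace F // w.IsComplex}) (x : F) : ‖prC w (ι F x)‖ = w.1 x := by
  show ‖w.1.embedding x‖ = w.1 x
  exact InfinitePlace.norm_embedding_eq w.1 x

end

theorem root6 {C K T x : ℝ} (hK : 1 ≤ K) (hCK : C ≤ K) (hT : 0 < T) {m : ℝ}
    (hm0 : 0 ≤ m) (hm : m ≤ T ^ 6) (h : x ^ 6 ≤ C * m) : x ≤ K * T := by
  by_contra hcon
  push Not at hcon
  have h1 : (K * T) ^ 6 < x ^ 6 := pow_lt_pow_left₀ hcon (by positivity) (by norm_num)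
  have h2 : K ≤ K ^ 6 := le_self_pow₀ hK (by norm_num)
  have h3 : C * m ≤ K * T ^ 6 := mul_le_mul hCK hm hm0 (by linarith)
  have h4 : K * T ^ 6 ≤ K ^ 6 * T ^ 6 := mul_le_mul_of_nonneg_right h2 (by positivity)
  rw [mul_pow] at h1
  linarith

theorem d1e (hC : S_D1C) : S_D1E := by
  intro F _ _
  obtain ⟨KR, hKR, hR⟩ := Pool.Agent.L0h45.AR.d1
  obtain ⟨KC, hKC, hCC⟩ := hC
  set K : ℝ := max 1 (max KR KC) with hKdef
  have hK1 : 1 ≤ K := le_max_left _ _
  have hKRle : KR ≤ K := (le_max_left _ _).trans (le_max_right _ _)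
  have hKCle : KC ≤ K := (le_max_right _ _).trans (le_max_right _ _)
  refine ⟨K, by linarith, ?_⟩
  intro T G hT hG hw
  have hpos : ∀ w : InfinitePlace F, 0 < w G.I ^ 3 + w G.J ^ 2 := by
    intro w
    have h1 : 0 ≤ w G.I := apply_nonneg _ _
    have h2 : 0 ≤ w G.J := apply_nonneg _ _
    rcases hG with h | h
    · have h3 : 0 < w G.I := InfinitePlace.pos_iff.2 h
      positivity
    · have h3 : 0 < w G.J := InfinitePlace.pos_iff.2 h
      positivity
  have hreal : ∀ w : {w : InfinitePlace F // w.IsReal}, ∃ p q r s : ℝ, p * s - q * r = 1 ∧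
      ((mp (prR w) (mp (ι F) G)).sub p q r s).N ≤ K * T := by
    intro w
    have hI : |(mp (prR w) (mp (ι F) G)).I| = w.1 G.I := by
      rw [mp_I, mp_I, abs_prR]
    have hJ : (mp (prR w) (mp (ι F) G)).J ^ 2 = w.1 G.J ^ 2 := by
      rw [mp_J, mp_J, ← sq_abs, abs_prR]
    obtain ⟨p, q, r, s, h1, h2⟩ := hR (mp (prR w) (mp (ι F) G)) (by rw [hI, hJ]; exact hpos w.1)
    rw [hI, hJ] at h2
    exact ⟨p, q, r, s, h1, root6 hK1 hKRle hT (hpos w.1).le (hw w.1) h2⟩
  have hcomp : ∀ w : {w : InfinitePlace F // w.IsComplex}, ∃ p q r s : ℂ, p * s - q * r = 1 ∧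
      max ‖((mp (prC w) (mp (ι F) G)).sub p q r s).a‖
        (max ‖((mp (prC w) (mp (ι F) G)).sub p q r s).b‖
          (max ‖((mp (prC w) (mp (ι F) G)).sub p q r s).c‖
            (max ‖((mp (prC w) (mp (ι F) G)).sub p q r s).d‖
              ‖((mp (prC w) (mp (ι F) G)).sub p q r s).e‖))) ≤ K * T := by
    intro w
    have hI : ‖(mp (prC w) (mp (ι F) G)).I‖ = w.1 G.I := by
      rw [mp_I, mp_I, norm_prC]
    have hJ : ‖(mp (prC w) (mp (ι F) G)).J‖ = w.1 G.J := by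
      rw [mp_J, mp_J, norm_prC]
    obtain ⟨p, q, r, s, h1, h2⟩ := hCC (mp (prC w) (mp (ι F) G)) (by rw [hI, hJ]; exact hpos w.1)
    rw [hI, hJ] at h2
    exact ⟨p, q, r, s, h1, root6 hK1 hKCle hT (hpos w.1).le (hw w.1) h2⟩
  choose pR qR rR sR hR1 hR2 using hreal
  choose pC qC rC sC hC1 hC2 using hcomp
  refine ⟨(pR, pC), (qR, qC), (rR, rC), (sR, sC), ?_, ?_⟩
  · refine Prod.ext (funext fun w => ?_) (funext fun w => ?_)
    · exact hR1 w
    · exact hC1 w
  have e1 : ∀ w, mp (prR w) ((mp (ι F) G).sub (pR, pC) (qR, qC) (rR, rC) (sR, sC)) =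
      (mp (prR w) (mp (ι F) G)).sub (pR w) (qR w) (rR w) (sR w) := fun w => mp_sub _ _ _ _ _ _
  have e2 : ∀ w, mp (prC w) ((mp (ι F) G).sub (pR, pC) (qR, qC) (rR, rC) (sR, sC)) =
      (mp (prC w) (mp (ι F) G)).sub (pC w) (qC w) (rC w) (sC w) := fun w => mp_sub _ _ _ _ _ _
  have hKT : 0 ≤ K * T := by positivity
  set H := (mp (ι F) G).sub (pR, pC) (qR, qC) (rR, rC) (sR, sC) with hH
  have f1 : ∀ w, (mp (prR w) H).N ≤ K * T := fun w => by rw [e1 w]; exact hR2 w
  have f2 : ∀ w, max ‖(mp (prC w) H).a‖ (max ‖(mp (prC w) H).b‖ (max ‖(mp (prC w) H).c‖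
      (max ‖(mp (prC w) H).d‖ ‖(mp (prC w) H).e‖))) ≤ K * T := fun w => by
    rw [e2 w]; exact hC2 w
  unfold Q4.N at f1
  simp only [max_le_iff] at f1 f2
  refine ⟨nrm_le hKT (fun w => (f1 w).1) fun w => (f2 w).1,
    nrm_le hKT (fun w => (f1 w).2.1) fun w => (f2 w).2.1,
    nrm_le hKT (fun w => (f1 w).2.2.1) fun w => (f2 w).2.2.1,
    nrm_le hKT (fun w => (f1 w).2.2.2.1) fun w => (f2 w).2.2.2.1,
    nrm_le hKT (fun w => (f1 w).2.2.2.2) fun w => (f2 w).2.2.2.2⟩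

end Pool.Agent.L0h83.NR
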