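import Pool.Agent.L0h50.NR.Stm

/-!
# Project NR, module D1C (helper83; after helper45's module AR.D1): complex binary quartic forms are
equivalent to forms with coefficients bounded in terms of the invariants
-/

set_option autoImplicit false

namespace Pool.Agent.L0h83.NR

open Pool.Agent.L0h45.AR (Q4)
open Pool.Agent.L0h50.NR

namespace DOneC

/-- the quantity `|I|³ + |J|²` -/
noncomputable def M (F : Q4 ℂ) : ℝ := ‖F.I‖ ^ 3 + ‖F.J‖ ^ 2

/-- the largest coefficient -/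
noncomputable def N (F : Q4 ℂ) : ℝ := max ‖F.a‖ (max ‖F.b‖ (max ‖F.c‖ (max ‖F.d‖ ‖F.e‖)))

/-- the form with given coefficients -/
def mk5 (x : ℂ × ℂ × ℂ × ℂ × ℂ) : Q4 ℂ := ⟨x.1, x.2.1, x.2.2.1, x.2.2.2.1, x.2.2.2.2⟩

/-- a scalar multiple -/
def sc (t : ℂ) (F : Q4 ℂ) : Q4 ℂ := ⟨t * F.a, t * F.b, t * F.c, t * F.d, t * F.e⟩

lemma I_sub (F : Q4 ℂ) (p q r s : ℂ) : (F.sub p q r s).I = (p * s - q * r) ^ 4 * F.I := by
  simp only [Q4.I, Q4.sub]; ring

lemma J_sub (F : Q4 ℂ) (p q r s : ℂ) : (F.sub p q r s).J = (p * s - q * r) ^ 6 * F.J := by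
  simp only [Q4.J, Q4.sub]; ring

lemma M_sub (F : Q4 ℂ) (p q r s : ℂ) (h : p * s - q * r = 1) : M (F.sub p q r s) = M F := by
  unfold M
  rw [I_sub, J_sub, h]; simp

lemma sub_sub (F : Q4 ℂ) (p q r s p' q' r' s' : ℂ) :
    (F.sub p q r s).sub p' q' r' s' =
      F.sub (p * p' + q * r') (p * q' + q * s') (r * p' + s * r') (r * q' + s * s') := by
  ext <;> simp only [Q4.sub] <;> ring

lemma sc_sub (t : ℂ) (F : Q4 ℂ) (p q r s : ℂ) : (sc t F).sub p q r s = sc t (F.sub p q r s) := by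
  ext <;> simp only [Q4.sub, sc] <;> ring

lemma M_sc (t : ℂ) (F : Q4 ℂ) : M (sc t F) = ‖t‖ ^ 6 * M F := by
  have h1 : (sc t F).I = t ^ 2 * F.I := by simp only [Q4.I, sc]; ring
  have h2 : (sc t F).J = t ^ 3 * F.J := by simp only [Q4.J, sc]; ring
  unfold M
  rw [h1, h2, norm_mul, norm_mul, norm_pow, norm_pow]; ring

lemma N_sc (t : ℂ) (F : Q4 ℂ) : N (sc t F) = ‖t‖ * N F := by
  simp only [N, sc, norm_mul, mul_max_of_nonneg _ _ (norm_nonneg t)]

lemma N_nonneg (F : Q4 ℂ) : 0 ≤ N F := le_max_of_le_left (norm_nonneg _)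

lemma N_mk5 (x : ℂ × ℂ × ℂ × ℂ × ℂ) : N (mk5 x) = ‖x‖ := by
  simp only [N, mk5, Prod.norm_def]

lemma det_mul {p q r s p' q' r' s' : ℂ} (h : p * s - q * r = 1) (h' : p' * s' - q' * r' = 1) :
    (p * p' + q * r') * (r * q' + s * s') - (p * q' + q * s') * (r * p' + s * r') = 1 := by
  have : (p * p' + q * r') * (r * q' + s * s') - (p * q' + q * s') * (r * p' + s * r') =
    (p * s - q * r) * (p' * s' - q' * r') := by ring
  rw [this, h, h']; norm_num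

/-- forms with a triple root -/
lemma triple (F : Q4 ℂ) (hI : F.I = 0) (hJ : F.J = 0) : ∃ p q r s : ℂ, p * s - q * r = 1 ∧
    (F.sub p q r s).c = 0 ∧ (F.sub p q r s).d = 0 ∧ (F.sub p q r s).e = 0 := by
  obtain ⟨a, b, c, d, e⟩ := F
  simp only [Q4.I, Q4.J] at hI hJ
  by_cases ha : a = 0
  · by_cases hb : b = 0
    · subst ha hb
      have hc : c = 0 := by
        have : c ^ 2 = 0 := by linear_combination hI
        exact pow_eq_zero_iff (two_ne_zero) |>.1 this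
      subst hc
      refine ⟨0, 1, -1, 0, by norm_num, ?_, ?_, ?_⟩ <;> simp [Q4.sub]
    · subst ha
      have hd : d = c ^ 2 / (3 * b) := by
        field_simp; linear_combination (-1) * hI
      have he' : 27 * e * b ^ 2 = c ^ 3 := by linear_combination (-1) * hJ - 3 * c * hI
      have he : e = c ^ 3 / (27 * b ^ 2) := by
        field_simp; linear_combination he'
      refine ⟨1, - (c / (3 * b)), 0, 1, by norm_num, ?_, ?_, ?_⟩ <;> simp only [Q4.sub] <;>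
        rw [hd] <;> try rw [he]
      all_goals field_simp; ring
  · -- the depressed form
    obtain ⟨k0, hk0⟩ : ∃ k0 : ℂ, k0 = - b / (4 * a) := ⟨_, rfl⟩
    have hb : b = - (4 * a * k0) := by rw [hk0]; field_simp
    subst hb
    obtain ⟨c1, hc1⟩ : ∃ c1 : ℂ, c1 = 6 * a * k0 ^ 2 + (- (4 * a * k0)) * (3 * k0) + c := ⟨_, rfl⟩
    obtain ⟨d1, hd1⟩ : ∃ d1 : ℂ, d1 = 4 * a * k0 ^ 3 + (- (4 * a * k0)) * (3 * k0 ^ 2) +
      c * (2 * k0) + d := ⟨_, rfl⟩
    obtain ⟨e1, he1⟩ : ∃ e1 : ℂ, e1 = a * k0 ^ 4 + (- (4 * a * k0)) * k0 ^ 3 + c * k0 ^ 2 + d * k0 + e :=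
      ⟨_, rfl⟩
    have hI1 : 12 * a * e1 + c1 ^ 2 = 0 := by rw [he1, hc1]; linear_combination hI
    have hJ1 : 72 * a * c1 * e1 - 27 * a * d1 ^ 2 - 2 * c1 ^ 3 = 0 := by
      rw [he1, hc1, hd1]; linear_combination hJ
    have hD1 : 27 * a * d1 ^ 2 = - 8 * c1 ^ 3 := by linear_combination (6 * c1) * hI1 - hJ1
    -- the translate by `k`
    have key : ∃ k : ℂ, c1 = - 6 * a * k ^ 2 ∧ d1 = 8 * a * k ^ 3 ∧ e1 = - 3 * a * k ^ 4 := by
      by_cases hc : c1 = 0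
      · refine ⟨0, by rw [hc]; ring, ?_, ?_⟩
        · rw [hc] at hD1
          have : a * d1 ^ 2 = 0 := by linear_combination (1 / 27 : ℂ) * hD1
          rcases mul_eq_zero.1 this with h | h
          · exact absurd h ha
          · have := pow_eq_zero_iff (two_ne_zero) |>.1 h
            rw [this]; ring
        · rw [hc] at hI1
          have : a * e1 = 0 := by linear_combination (1 / 12 : ℂ) * hI1
          rcases mul_eq_zero.1 this with h | h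
          · exact absurd h ha
          · rw [h]; ring
      · refine ⟨- 3 * d1 / (4 * c1), ?_, ?_, ?_⟩
        · field_simp
          linear_combination 2 * hD1
        · field_simp
          linear_combination (8 * d1) * hD1
        · have h2 : (27 * a * d1 ^ 2) ^ 2 = (8 * c1 ^ 3) ^ 2 := by rw [hD1]; ring
          have h3 : a * (e1 - - 3 * a * (- 3 * d1 / (4 * c1)) ^ 4) = 0 := by
            have h4 : 12 * a * e1 = - c1 ^ 2 := by linear_combination hI1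
            have h5 : a * (e1 - - 3 * a * (- 3 * d1 / (4 * c1)) ^ 4) =
              (12 * a * e1) / 12 + 3 * (27 * a * d1 ^ 2) ^ 2 * 81 / (27 ^ 2 * 256 * c1 ^ 4) := by
              field_simp; ring
            rw [h5, h4, h2]
            field_simp; ring
          rcases mul_eq_zero.1 h3 with h | h
          · exact absurd h ha
          · linear_combination h
    obtain ⟨k, h1, h2, h3⟩ := key
    refine ⟨1, k0 + k, 0, 1, by norm_num, ?_, ?_, ?_⟩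
    · simp only [Q4.sub]; linear_combination h1 - hc1
    · simp only [Q4.sub]; linear_combination h2 - hd1 + 2 * k * (h1 - hc1)
    · simp only [Q4.sub]; linear_combination h3 - he1 + k * (h2 - hd1) + k ^ 2 * (h1 - hc1)

lemma small (F : Q4 ℂ) (hI : F.I = 0) (hJ : F.J = 0) : ∃ p q r s : ℂ, p * s - q * r = 1 ∧
    N (F.sub p q r s) < 1 / 2 := by
  obtain ⟨p, q, r, s, hg, hc, hd, he⟩ := triple F hI hJ
  set G := F.sub p q r s with hG
  obtain ⟨t, ht⟩ : ∃ t : ℝ, t = 1 / (2 * (1 + ‖G.a‖ + ‖G.b‖)) := ⟨_, rfl⟩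
  have ha := norm_nonneg G.a
  have hb := norm_nonneg G.b
  have ht0 : 0 < t := by rw [ht]; positivity
  have ht1 : t * (1 + ‖G.a‖ + ‖G.b‖) = 1 / 2 := by rw [ht]; field_simp
  have ht2 : t ≤ 1 := by
    have : t * 1 ≤ t * (1 + ‖G.a‖ + ‖G.b‖) := mul_le_mul_of_nonneg_left (by linarith) ht0.le
    linarith
  have htc : (t : ℂ) ≠ 0 := by exact_mod_cast ht0.ne'
  refine ⟨_, _, _, _, det_mul (p' := (t : ℂ)) (q' := 0) (r' := 0) (s' := 1 / (t : ℂ)) hg
    (by rw [mul_one_div_cancel htc]; ring), ?_⟩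
  rw [← sub_sub, ← hG]
  have e1 : (G.sub t 0 0 (1 / t)).a = G.a * t ^ 4 := by simp [Q4.sub]
  have e2 : (G.sub t 0 0 (1 / t)).b = G.b * t ^ 2 := by
    simp only [Q4.sub]; field_simp; ring
  have e3 : (G.sub t 0 0 (1 / t)).c = 0 := by simp [Q4.sub, hc]
  have e4 : (G.sub t 0 0 (1 / t)).d = 0 := by simp [Q4.sub, hd]
  have e5 : (G.sub t 0 0 (1 / t)).e = 0 := by simp [Q4.sub, he]
  have t2 : t ^ 2 ≤ t := by nlinarith
  have t4 : t ^ 4 ≤ t := by nlinarith [sq_nonneg t]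
  have n2 : ‖(t : ℂ) ^ 2‖ = t ^ 2 := by
    rw [norm_pow, Complex.norm_real, Real.norm_eq_abs, abs_of_pos ht0]
  have n4 : ‖(t : ℂ) ^ 4‖ = t ^ 4 := by
    rw [norm_pow, Complex.norm_real, Real.norm_eq_abs, abs_of_pos ht0]
  simp only [N, e1, e2, e3, e4, e5, norm_zero, max_self]
  refine max_lt ?_ (max_lt ?_ (by norm_num))
  · rw [norm_mul, n4]
    nlinarith
  · rw [norm_mul, n2]
    nlinarith

lemma cont_N_sub (p q r s : ℂ) : Continuous fun x => N ((mk5 x).sub p q r s) := by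
  simp only [N, Q4.sub, mk5]
  fun_prop

lemma cont_M : Continuous fun x => M (mk5 x) := by
  simp only [M, Q4.I, Q4.J, mk5]
  fun_prop

/-- the constant of a form of norm `1` -/
lemma gap : ∃ ε : ℝ, 0 < ε ∧ ∀ x : ℂ × ℂ × ℂ × ℂ × ℂ, ‖x‖ = 1 → M (mk5 x) < ε →
    ∃ p q r s : ℂ, p * s - q * r = 1 ∧ N ((mk5 x).sub p q r s) < 1 / 2 := by
  let K : Set (ℂ × ℂ × ℂ × ℂ × ℂ) := {x | ‖x‖ = 1 ∧ ∀ p q r s : ℂ, p * s - q * r = 1 →
    1 / 2 ≤ N ((mk5 x).sub p q r s)}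
  have hK : IsCompact K := by
    apply (isCompact_sphere (0 : ℂ × ℂ × ℂ × ℂ × ℂ) 1).of_isClosed_subset
    · have : K = {x | ‖x‖ = 1} ∩ ⋂ p, ⋂ q, ⋂ r, ⋂ s, ⋂ (_ : p * s - q * r = 1),
          {x | 1 / 2 ≤ N ((mk5 x).sub p q r s)} := by
        ext x; simp [K]
      rw [this]
      refine (isClosed_eq continuous_norm continuous_const).inter ?_
      refine isClosed_iInter fun p => isClosed_iInter fun q => isClosed_iInter fun r =>
        isClosed_iInter fun s => isClosed_iInter fun _ => ?_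
      exact isClosed_le continuous_const (cont_N_sub p q r s)
    · intro x hx
      simpa using hx.1
  have hpos : ∀ x ∈ K, 0 < M (mk5 x) := by
    intro x hx
    by_contra hM
    have h1 : 0 ≤ ‖(mk5 x).I‖ ^ 3 := by positivity
    have h2 : 0 ≤ ‖(mk5 x).J‖ ^ 2 := by positivity
    have hM' : ‖(mk5 x).I‖ ^ 3 + ‖(mk5 x).J‖ ^ 2 ≤ 0 := not_lt.1 hM
    have hI : (mk5 x).I = 0 := by
      have : ‖(mk5 x).I‖ ^ 3 = 0 := by linarith
      simpa using this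
    have hJ : (mk5 x).J = 0 := by
      have : ‖(mk5 x).J‖ ^ 2 = 0 := by linarith
      simpa using this
    obtain ⟨p, q, r, s, hg, h⟩ := small _ hI hJ
    exact absurd (hx.2 p q r s hg) (not_le.2 h)
  rcases K.eq_empty_or_nonempty with h | h
  · refine ⟨1, one_pos, fun x hx _ => ?_⟩
    by_contra hcon
    push Not at hcon
    have : x ∈ K := ⟨hx, fun p q r s hg => hcon p q r s hg⟩
    rw [h] at this
    exact this
  · obtain ⟨y, hy, hmin⟩ := hK.exists_isMinOn h cont_M.continuousOn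
    refine ⟨M (mk5 y), hpos y hy, fun x hx hM => ?_⟩
    by_contra hcon
    push Not at hcon
    have hxK : x ∈ K := ⟨hx, fun p q r s hg => hcon p q r s hg⟩
    exact absurd (hmin hxK) (not_le.2 hM)

lemma mk5_surj (F : Q4 ℂ) : mk5 (F.a, F.b, F.c, F.d, F.e) = F := rfl

lemma gap' : ∃ ε : ℝ, 0 < ε ∧ ∀ F : Q4 ℂ, 0 < N F → M F < ε * N F ^ 6 →
    ∃ p q r s : ℂ, p * s - q * r = 1 ∧ N (F.sub p q r s) < N F / 2 := by
  obtain ⟨ε, hε, h⟩ := gap
  refine ⟨ε, hε, fun F hF hM => ?_⟩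
  have hn : ‖(((N F)⁻¹ : ℝ) : ℂ)‖ = (N F)⁻¹ := by
    rw [Complex.norm_real, Real.norm_eq_abs, abs_of_pos (inv_pos.2 hF)]
  have h1 : N (sc (((N F)⁻¹ : ℝ) : ℂ) F) = 1 := by
    rw [N_sc, hn]; exact inv_mul_cancel₀ hF.ne'
  have h2 : M (sc (((N F)⁻¹ : ℝ) : ℂ) F) < ε := by
    rw [M_sc, hn, inv_pow, inv_mul_lt_iff₀ (by positivity)]
    linarith
  have h3 := h ((sc (((N F)⁻¹ : ℝ) : ℂ) F).a, (sc (((N F)⁻¹ : ℝ) : ℂ) F).b,
    (sc (((N F)⁻¹ : ℝ) : ℂ) F).c, (sc (((N F)⁻¹ : ℝ) : ℂ) F).d, (sc (((N F)⁻¹ : ℝ) : ℂ) F).e)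
    (by rw [← N_mk5, mk5_surj, h1]) (by rw [mk5_surj]; exact h2)
  obtain ⟨p, q, r, s, hg, h4⟩ := h3
  refine ⟨p, q, r, s, hg, ?_⟩
  rw [mk5_surj, sc_sub, N_sc, hn, inv_mul_lt_iff₀ hF] at h4
  linarith

end DOneC

open DOneC in
/-- D1C -/
theorem d1c : S_D1C := by
  obtain ⟨ε, hε, h⟩ := gap'
  refine ⟨ε⁻¹, inv_pos.2 hε, fun F hF => ?_⟩
  by_contra hcon
  push Not at hcon
  have hF' : 0 < M F := hF
  have hcon' : ∀ p q r s : ℂ, p * s - q * r = 1 → ε⁻¹ * M F < N (F.sub p q r s) ^ 6 := hcon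
  -- the infimum of the norms
  let S : Set ℝ := {x | ∃ p q r s : ℂ, p * s - q * r = 1 ∧ x = N (F.sub p q r s)}
  have hne : S.Nonempty := ⟨_, 1, 0, 0, 1, by norm_num, rfl⟩
  have hbdd : BddBelow S := ⟨0, by
    rintro x ⟨p, q, r, s, _, rfl⟩
    exact N_nonneg _⟩
  obtain ⟨δ, hδ, hδ'⟩ : ∃ δ : ℝ, 0 < δ ∧ δ ^ 6 ≤ ε⁻¹ * M F := by
    refine ⟨min 1 (ε⁻¹ * M F), lt_min one_pos (by positivity), ?_⟩
    have h1 : min 1 (ε⁻¹ * M F) ≤ 1 := min_le_left _ _
    have h2 : min 1 (ε⁻¹ * M F) ≤ ε⁻¹ * M F := min_le_right _ _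
    have h0 : 0 < min 1 (ε⁻¹ * M F) := lt_min one_pos (by positivity)
    calc (min 1 (ε⁻¹ * M F)) ^ 6 ≤ (min 1 (ε⁻¹ * M F)) ^ 1 :=
          pow_le_pow_of_le_one h0.le h1 (by norm_num)
      _ ≤ ε⁻¹ * M F := by rw [pow_one]; exact h2
  have hlow : ∀ x ∈ S, δ ≤ x := by
    rintro x ⟨p, q, r, s, hg, rfl⟩
    by_contra hlt
    have h1 := hcon' p q r s hg
    have h2 : N (F.sub p q r s) ^ 6 ≤ δ ^ 6 :=
      pow_le_pow_left₀ (N_nonneg _) (not_le.1 hlt).le 6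
    linarith
  have hρ : δ ≤ sInf S := le_csInf hne hlow
  have hρ0 : 0 < sInf S := lt_of_lt_of_le hδ hρ
  obtain ⟨x, ⟨p, q, r, s, hg, rfl⟩, hx⟩ := exists_lt_of_csInf_lt hne
    (show sInf S < 2 * sInf S by linarith)
  have hpos : 0 < N (F.sub p q r s) := lt_of_lt_of_le hδ (hlow _ ⟨p, q, r, s, hg, rfl⟩)
  have hM : M (F.sub p q r s) < ε * N (F.sub p q r s) ^ 6 := by
    rw [M_sub _ _ _ _ _ hg]
    have := hcon' p q r s hg
    rw [inv_mul_lt_iff₀ hε] at this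
    exact this
  obtain ⟨p', q', r', s', hg', h'⟩ := h _ hpos hM
  rw [sub_sub] at h'
  have h3 : sInf S ≤ _ := csInf_le hbdd ⟨_, _, _, _, det_mul hg hg', rfl⟩
  linarith

end Pool.Agent.L0h83.NR
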